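import Pool.Agent.W361.LQ.Defs

set_option autoImplicit false

namespace Pool.Agent.W565.LQ

open Pool.Agent.W361.LQ

theorem near_of {N k a b : ℕ} (hN : 0 < N) (h : near N k a b) :
    ‖((((a : ℝ) / N : ℝ) : UnitAddCircle) - (((b : ℝ) / N : ℝ) : UnitAddCircle))‖ ≤
      (k : ℝ) / N := by
  obtain ⟨i, hi, h⟩ := h
  have hN' : (0 : ℝ) < N := by exact_mod_cast hN
  have h1 : ((N : ℤ)) ∣ ((b + i : ℕ) : ℤ) - ((a + k : ℕ) : ℤ) :=
    (Nat.modEq_iff_dvd (n := N) (a := a + k) (b := b + i)).1 h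
  obtain ⟨q, hq⟩ := h1
  have hq' : ((b : ℝ) + i) - (a + k) = N * q := by exact_mod_cast hq
  have h2 : (a : ℝ) / N - (b : ℝ) / N = ((i : ℝ) - k) / N + ((-q : ℤ) : ℝ) := by
    push_cast
    field_simp
    linarith
  rw [← AddCircle.coe_sub, h2, AddCircle.coe_add]
  have h3 : ((((-q : ℤ) : ℝ)) : UnitAddCircle) = 0 := by
    rw [AddCircle.coe_eq_zero_iff]
    exact ⟨-q, by simp⟩
  rw [h3, add_zero]
  refine (norm_coe_le _).trans ?_
  rw [abs_div, abs_of_pos hN']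
  gcongr
  rw [abs_le]
  have hi' : (i : ℝ) ≤ 2 * k := by exact_mod_cast (by omega : i ≤ 2 * k)
  have hi0 : (0 : ℝ) ≤ i := by positivity
  constructor <;> linarith

theorem of_near {N k a b : ℕ} (hN : 0 < N)
    (h : ‖((((a : ℝ) / N : ℝ) : UnitAddCircle) - (((b : ℝ) / N : ℝ) : UnitAddCircle))‖ ≤
      (k : ℝ) / N) : near N k a b := by
  have hN' : (0 : ℝ) < N := by exact_mod_cast hN
  rw [← AddCircle.coe_sub, UnitAddCircle.norm_eq] at h
  set q : ℤ := round ((a : ℝ) / N - (b : ℝ) / N) with hq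
  have h1 : |(a : ℝ) - b - N * q| ≤ k := by
    have h2 : (a : ℝ) - b - N * q = N * ((a : ℝ) / N - (b : ℝ) / N - q) := by
      field_simp
    rw [h2, abs_mul, abs_of_pos hN']
    calc (N : ℝ) * |(a : ℝ) / N - (b : ℝ) / N - q| ≤ N * (k / N) := by gcongr
      _ = k := by field_simp
  have h3 : |(a : ℤ) - b - N * q| ≤ k := by exact_mod_cast h1
  rw [abs_le] at h3
  obtain ⟨h4, h5⟩ := h3
  refine ⟨((a : ℤ) - b - N * q + k).toNat, by omega, ?_⟩
  have h6 : (((((a : ℤ) - b - N * q + k).toNat : ℕ)) : ℤ) = (a : ℤ) - b - N * q + k :=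
    Int.toNat_of_nonneg (by omega)
  refine (Nat.modEq_iff_dvd (n := N)).2 ⟨-q, ?_⟩
  push_cast [h6]
  ring

end Pool.Agent.W565.LQ
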