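import Pool.Agent.W361.LQ.Stm
import Pool.Agent.W565.LQ.Near0

set_option autoImplicit false

namespace Pool.Agent.W565.LQ.Near

open Pool.Agent.W361.LQ

theorem main : S_NEAR := fun _ _ _ _ hN => ⟨near_of hN, of_near hN⟩

end Pool.Agent.W565.LQ.Near
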